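import Pool.Agent.N809.P17.Tw

/-!
# Non-vanishing of the central values of all the quadratic twists of the newform of level 17

Let `π'` be the automorphic representation of `PGL(2)` of the newform `f` of weight two and level `17`,
that is of the elliptic curve `y² + x y + y = x³ - x² - x - 14`; it comes from the definite quaternion
algebra of discriminant `17` and has no complex multiplication. For a quadratic field `ℚ(√m)`, `m`
squarefree, `L(s + 1/2, π' ⊗ η)` is the function `F` of `IsL m F` below, so that the centre is `s = 1`.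
We prove, with no hypothesis:
* for all `m` the twisted L-function is entire and it vanishes at the centre if `ε = -1`, i.e. if `m < 0`
  and `17` is split or `m > 0` and `17` is not split in `ℚ(√m)`;
* at least `20.97` percent of ALL the quadratic fields, real and imaginary, ordered by the discriminant,
  and at least `41.94` percent of those with `ε = 1`, have a non-vanishing central value: the lower
  limits are at least `η/2` and `η`, `η = ∏_{i ≥ 1} (1 - 2^{-(2i-1)})`;
* at most half of all the quadratic fields have a non-vanishing central value, and for half of them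
  `ε = 1` (upper limit and limit).

Joint work of helpers 969, 970, 971, 972, 973, 974, 975, 99, 218, 402, 575, 609, 809, 816, 844, 855, 871,
875, 877, 886, 890, 916, 919 and others (the parts are described in
`Results/MP_696deb_nt/Conductor17.lean` and `Results/MP_4a9ea6_nt/TwoPartTwistsX17.lean`).
-/

set_option autoImplicit false

open Finset Filter

namespace Pool.Agent.Results.MP_17f4cb_nt.NewformSeventeen

/-- the coefficient `a_p` of the newform of level `17`: `p + 1` minus the number of the points modulo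
`p`, the point at infinity included, of `y² + x y + y = x³ - x² - x - 14` -/
noncomputable def a (p : ℕ) : ℤ := (p : ℤ) - Nat.card {q : ZMod p × ZMod p //
  q.2 ^ 2 + q.1 * q.2 + q.2 = q.1 ^ 3 - q.1 ^ 2 - q.1 - 14}

/-- the value at the prime `p` of the quadratic character of `ℚ(√m)`, `m` squarefree (the trivial
character if `m = 1`); it is `0` if `p` is ramified -/
def chi (m : ℤ) (p : ℕ) : ℤ :=
  if p = 2 then (if m % 8 = 1 then 1 else if m % 8 = 5 then -1 else 0) else jacobiSym m p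

/-- `F` is entire and is, for `Re s > 3/2`, the complete Euler product of the newform of level `17`
twisted by the character of `ℚ(√m)`: `F s = L(s - 1/2, π' ⊗ η)` -/
def IsL (m : ℤ) (F : ℂ → ℂ) : Prop :=
  Differentiable ℂ F ∧ ∀ s : ℂ, (3 : ℝ) / 2 < s.re →
    HasProd (fun p : Nat.Primes => (1 - ((chi m p * a p : ℤ) : ℂ) * ((p : ℕ) : ℂ) ^ (-s) +
      (if (p : ℕ) = 17 then 0 else ((chi m p ^ 2 : ℤ) : ℂ) * ((p : ℕ) : ℂ) ^ (1 - 2 * s)))⁻¹) (F s)

/-- the central value is not zero -/
def NonVanishing (m : ℤ) : Prop := ∃ F : ℂ → ℂ, IsL m F ∧ F 1 ≠ 0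

/-- the global root number `ε` of the twist is `1` -/
def RootPlus (m : ℤ) : Prop := (0 < m ∧ jacobiSym m 17 = 1) ∨ (m < 0 ∧ jacobiSym m 17 ≠ 1)

/-- `D` is a fundamental discriminant (`1` included) -/
def Fund (D : ℤ) : Prop := (Squarefree D ∧ D % 4 = 1) ∨
  ∃ m : ℤ, D = 4 * m ∧ Squarefree m ∧ (m % 4 = 2 ∨ m % 4 = 3)

/-- the squarefree integer `m` with `ℚ(√m) = ℚ(√D)` -/
def core (D : ℤ) : ℤ := if D % 2 = 1 then D else D / 4

open Classical in
/-- the number of the quadratic fields of discriminant `D`, `|D| ≤ X`, with the property `P` of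
`m = core D` -/
noncomputable def count (P : ℤ → Prop) (X : ℕ) : ℕ :=
  ((Icc (-(X : ℤ)) X).filter fun D => Fund D ∧ D ≠ 1 ∧ P (core D)).card

section proof

open Pool.Agent.N809.P17.Tw
open Pool.Agent.N919.BS (NF NN Rt17 root17)
open Pool.Agent.N916.MO (G17)
open Pool.Agent.W97.MT (ap affCount)
open Pool.Agent.N974.Gen (E17)

theorem a_eq (p : ℕ) : a p = ap E17 p := by
  unfold a ap affCount
  congr 2
  refine Nat.card_congr (Equiv.subtypeEquivRight fun P => ?_)
  rw [WeierstrassCurve.Affine.equation_iff]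
  simp only [E17, WeierstrassCurve.map, map_one, map_neg, map_ofNat, one_mul]
  constructor
  · intro h
    linear_combination h
  · intro h
    linear_combination h

theorem isL_iff (m : ℤ) (F : ℂ → ℂ) : IsL m F ↔ IsLt m F := by
  unfold IsL IsLt
  refine and_congr Iff.rfl (forall_congr' fun s => forall_congr' fun _ => ?_)
  have e : (fun p : Nat.Primes => (1 - ((chi m p * a p : ℤ) : ℂ) * ((p : ℕ) : ℂ) ^ (-s) +
      (if (p : ℕ) = 17 then 0 else ((chi m p ^ 2 : ℤ) : ℂ) * ((p : ℕ) : ℂ) ^ (1 - 2 * s)))⁻¹) =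
      fun p : Nat.Primes => (1 - ((Pool.Agent.N809.P17.Tw.chi m p * ap E17 p : ℤ) : ℂ) *
        ((p : ℕ) : ℂ) ^ (-s) + (if (p : ℕ) = 17 then 0 else
        ((Pool.Agent.N809.P17.Tw.chi m p ^ 2 : ℤ) : ℂ) * ((p : ℕ) : ℂ) ^ (1 - 2 * s)))⁻¹ := by
    funext p
    rw [a_eq]
    rfl
  rw [e]

theorem good_nv {m : ℤ} (hs : Squarefree m) (h : Rt17 m ∧ G17 m) : NonVanishing m := by
  obtain ⟨F, h1, -, -, h2⟩ := main hs
  refine ⟨F, (isL_iff m F).2 h1, h2 ?_⟩
  rw [← Pool.Agent.N875.P17.fin2S_iff hs]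
  exact (Pool.Agent.N809.P17.fin2_all hs).2 h

theorem nv_root {m : ℤ} (hs : Squarefree m) (h : NonVanishing m) : Rt17 m := by
  obtain ⟨F, h1, h2⟩ := h
  obtain ⟨G, -, h4, h5, -⟩ := main hs
  by_contra hR
  have h6 := h4 F ((isL_iff m F).1 h1)
  rw [h6] at h2
  exact h2 (h5 hR)

theorem fund_core {D : ℤ} (h : Fund D) : Squarefree (core D) := by
  rcases h with ⟨h1, h2⟩ | ⟨m, rfl, h1, h2⟩
  · unfold core
    rw [if_pos (by omega)]
    exact h1
  · unfold core
    rw [if_neg (by omega)]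
    have : 4 * m / 4 = m := by omega
    rw [this]
    exact h1

theorem count_le {P Q : ℤ → Prop} (h : ∀ m, Squarefree m → P m → Q m) (X : ℕ) :
    count P X ≤ NF Q X := by
  classical
  unfold count NF
  refine (card_le_card fun D hD => ?_).trans_eq (congrArg Finset.card rfl)
  rw [mem_filter] at hD ⊢
  exact ⟨hD.1, hD.2.1, h _ (fund_core hD.2.1) hD.2.2.2⟩

theorem le_count {P Q : ℤ → Prop} (h : ∀ m, Squarefree m → Q m → P m) (X : ℕ) :
    NF Q X ≤ count P X + 1 := by
  classical
  unfold count NF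
  refine le_trans (card_le_card (t := insert 1 ((Icc (-(X : ℤ)) X).filter
    fun D => Fund D ∧ D ≠ 1 ∧ P (core D))) fun D hD => ?_) (card_insert_le _ _)
  rw [mem_filter] at hD
  rw [mem_insert, mem_filter]
  by_cases h1 : D = 1
  · exact Or.inl h1
  · exact Or.inr ⟨hD.1, hD.2.1, h1, h _ (fund_core hD.2.1) hD.2.2⟩

theorem low : ∃ (c : ℝ) (X₀ : ℕ), 0 < c ∧ ∀ X : ℕ, X₀ ≤ X → c * X ≤ (NF (fun _ => True) X : ℝ) := by
  obtain ⟨c, X₀, hc, h⟩ := Pool.Agent.N919.BS.low1
  refine ⟨c, X₀, hc, fun X hX => (h X hX).trans ?_⟩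
  rw [Pool.Agent.N919.BS.NF_eq]
  exact_mod_cast (by omega)

theorem T_top : Tendsto (fun X : ℕ => (NF (fun _ => True) X : ℝ)) atTop atTop := by
  obtain ⟨c, X₀, hc, h⟩ := low
  refine tendsto_atTop_mono' atTop (f₁ := fun X : ℕ => c * (X : ℝ)) ?_
    (Tendsto.const_mul_atTop hc tendsto_natCast_atTop_atTop)
  filter_upwards [eventually_ge_atTop X₀] with X hX using h X hX

/-- half of the fields have `ε = 1` -/
theorem half : Tendsto (fun X : ℕ => (NF Rt17 X : ℝ) / (NF (fun _ => True) X : ℝ)) atTop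
    (nhds (1 / 2)) := by
  obtain ⟨c, X₁, hc, hlow⟩ := low
  refine Pool.Agent.N919.BS.ratio hc hlow fun ε hε => ?_
  refine ⟨⌈(288 / ε) ^ 2⌉₊, fun X hX => ?_⟩
  have h2 := Pool.Agent.N919.BS.NF_half root17 X
  have h5 : (288 / ε) ^ 2 ≤ X := (Nat.le_ceil _).trans (by exact_mod_cast hX)
  have h6 : 288 / ε ≤ Real.sqrt X := Real.le_sqrt_of_sq_le h5
  have h7 : 288 ≤ Real.sqrt X * ε := by rwa [div_le_iff₀ hε] at h6
  have h8 : Real.sqrt X * Real.sqrt X = X := Real.mul_self_sqrt (Nat.cast_nonneg _)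
  have h9 : 0 ≤ Real.sqrt X := Real.sqrt_nonneg _
  have e : (NF Rt17 X : ℝ) - 1 / 2 * (NF (fun _ => True) X : ℝ) =
      (2 * (NF Rt17 X : ℝ) - NF (fun _ => True) X) / 2 := by ring
  rw [e, abs_div, abs_of_pos (by norm_num : (0 : ℝ) < 2), div_le_iff₀ (by norm_num)]
  refine h2.trans ?_
  push_cast
  nlinarith

theorem hasProd_c2 : HasProd (fun i : ℕ => 1 - (1 / 2 : ℝ) ^ (2 * i + 1)) Pool.Agent.Y703.CQ.c2 := by
  have h : Multipliable fun i : ℕ => 1 + -((1 / 2 : ℝ) ^ (2 * i + 1)) := by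
    apply multipliable_one_add_of_summable
    have h1 : Summable fun i : ℕ => (1 / 4 : ℝ) ^ i * (1 / 2) :=
      (summable_geometric_of_lt_one (by norm_num) (by norm_num)).mul_right _
    refine h1.congr fun i => ?_
    rw [norm_neg, Real.norm_of_nonneg (by positivity), pow_succ, pow_mul]
    norm_num
  have h3 := h.hasProd
  have e : (fun i : ℕ => 1 + -((1 / 2 : ℝ) ^ (2 * i + 1))) =
      fun i : ℕ => 1 - (1 / 2 : ℝ) ^ (2 * i + 1) := by
    funext i
    ring
  rw [e] at h3
  exact h3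

/-- the counting argument -/
theorem final {η ε : ℝ} (h0 : 0 < η) (h1 : η < 1) (hε : 0 < ε)
    (hG : Tendsto (fun X : ℕ => (NF (fun d => Rt17 d ∧ G17 d) X : ℝ) /
      (NF (fun _ => True) X : ℝ)) atTop (nhds (η / 2))) :
    ∀ᶠ X : ℕ in atTop,
      (η / 2 - ε) * count (fun _ => True) X ≤ count NonVanishing X ∧
      (η - ε) * count RootPlus X ≤ count NonVanishing X ∧
      (count NonVanishing X : ℝ) ≤ (1 / 2 + ε) * count (fun _ => True) X ∧
      |(count RootPlus X : ℝ) - 1 / 2 * count (fun _ => True) X| ≤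
        ε * count (fun _ => True) X := by
  set δ : ℝ := ε / 8 with hδ
  have hδ0 : 0 < δ := by positivity
  have e1 := hG.eventually (lt_mem_nhds (show η / 2 - δ < η / 2 by linarith))
  have e2 := half.eventually (gt_mem_nhds (show (1 / 2 : ℝ) < 1 / 2 + δ by linarith))
  have e3 := half.eventually (lt_mem_nhds (show (1 / 2 : ℝ) - δ < 1 / 2 by linarith))
  have e4 := T_top.eventually_ge_atTop ((2 + ε) / δ + 2)
  filter_upwards [e1, e2, e3, e4] with X a1 a2 a3 a4
  set T : ℝ := (NF (fun _ => True) X : ℝ) with hT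
  set R : ℝ := (NF Rt17 X : ℝ) with hR
  set G : ℝ := (NF (fun d => Rt17 d ∧ G17 d) X : ℝ) with hGd
  have hT0 : 0 < T := by
    have : 0 < (2 + ε) / δ + 2 := by positivity
    linarith
  have b1 : (η / 2 - δ) * T < G := by rwa [lt_div_iff₀ hT0] at a1
  have b2 : R < (1 / 2 + δ) * T := by rwa [div_lt_iff₀ hT0] at a2
  have b3 : (1 / 2 - δ) * T < R := by rwa [lt_div_iff₀ hT0] at a3
  have b4 : 2 + ε ≤ δ * T := by
    have h5 : (2 + ε) / δ ≤ T := by linarith
    rwa [div_le_iff₀ hδ0, mul_comm] at h5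
  have c1 : G ≤ count NonVanishing X + 1 := by
    rw [hGd]
    exact_mod_cast le_count (P := NonVanishing) (fun m hs h => good_nv hs h) X
  have c2 : (count NonVanishing X : ℝ) ≤ R := by
    rw [hR]
    exact_mod_cast count_le (Q := Rt17) (fun m hs h => nv_root hs h) X
  have c3 : (count (fun _ => True) X : ℝ) ≤ T := by
    rw [hT]
    exact_mod_cast count_le (Q := fun _ => True) (fun _ _ h => h) X
  have c4 : T ≤ count (fun _ => True) X + 1 := by
    rw [hT]
    exact_mod_cast le_count (P := fun _ => True) (fun _ _ h => h) X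
  have c5 : (count RootPlus X : ℝ) ≤ R := by
    rw [hR]
    exact_mod_cast count_le (Q := Rt17) (fun _ _ h => h) X
  have c6 : R ≤ count RootPlus X + 1 := by
    rw [hR]
    exact_mod_cast le_count (P := RootPlus) (fun _ _ h => h) X
  have n0 : (0 : ℝ) ≤ count NonVanishing X := Nat.cast_nonneg _
  have n1 : (0 : ℝ) ≤ count (fun _ => True) X := Nat.cast_nonneg _
  have n2 : (0 : ℝ) ≤ count RootPlus X := Nat.cast_nonneg _
  set N : ℝ := (count (fun _ => True) X : ℝ) with hN
  set V : ℝ := (count NonVanishing X : ℝ) with hV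
  set W : ℝ := (count RootPlus X : ℝ) with hW
  have hε8 : ε = 8 * δ := by rw [hδ]; ring
  refine ⟨?_, ?_, ?_, ?_⟩
  · by_cases h5 : η / 2 - ε ≤ 0
    · exact (mul_nonpos_of_nonpos_of_nonneg h5 n1).trans n0
    · push Not at h5
      have h6 : (η / 2 - ε) * N ≤ (η / 2 - ε) * T := mul_le_mul_of_nonneg_left c3 h5.le
      have h7 : (η / 2 - ε) * T = (η / 2 - δ) * T - 7 * (δ * T) := by rw [hε8]; ring
      linarith
  · by_cases h5 : η - ε ≤ 0
    · exact (mul_nonpos_of_nonpos_of_nonneg h5 n2).trans n0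
    · push Not at h5
      have h6 : (η - ε) * W ≤ (η - ε) * ((1 / 2 + δ) * T) :=
        mul_le_mul_of_nonneg_left (c5.trans b2.le) h5.le
      have h7 : (η - ε) * ((1 / 2 + δ) * T) = (η / 2 - δ) * T + (η - 3) * (δ * T) -
          8 * δ * (δ * T) := by rw [hε8]; ring
      have h8 : 0 ≤ δ * T := by positivity
      have h9 : 0 ≤ 8 * δ * (δ * T) := by positivity
      have h10 : (η - 3) * (δ * T) ≤ -2 * (δ * T) := mul_le_mul_of_nonneg_right (by linarith) h8
      linarith
  · have h6 : (1 / 2 + ε) * (T - 1) ≤ (1 / 2 + ε) * N :=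
      mul_le_mul_of_nonneg_left (by linarith) (by linarith)
    have h7 : (1 / 2 + ε) * (T - 1) = (1 / 2 + δ) * T + 7 * (δ * T) - 1 / 2 - ε := by
      rw [hε8]; ring
    linarith
  · have h6 : ε * (T - 1) ≤ ε * N := mul_le_mul_of_nonneg_left (by linarith) hε.le
    have h7 : ε * (T - 1) = 8 * (δ * T) - ε := by rw [hε8]; ring
    rw [abs_le]
    constructor
    · have h8 : (1 / 2 - δ) * T = 1 / 2 * T - δ * T := by ring
      linarith
    · have h8 : (1 / 2 + δ) * T = 1 / 2 * T + δ * T := by ring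
      linarith

end proof

/-- **Central values of the quadratic twists of the newform of level `17`.** -/
theorem result :
    (∀ m : ℤ, Squarefree m → ∃ F : ℂ → ℂ, IsL m F ∧ (∀ G : ℂ → ℂ, IsL m G → G = F) ∧
      (¬ RootPlus m → F 1 = 0)) ∧
    ∃ η : ℝ, HasProd (fun i : ℕ => 1 - (1 / 2 : ℝ) ^ (2 * i + 1)) η ∧ 0.4194 < η ∧ η < 0.4195 ∧
      ∀ ε : ℝ, 0 < ε → ∀ᶠ X : ℕ in atTop,
        (η / 2 - ε) * count (fun _ => True) X ≤ count NonVanishing X ∧
        (η - ε) * count RootPlus X ≤ count NonVanishing X ∧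
        (count NonVanishing X : ℝ) ≤ (1 / 2 + ε) * count (fun _ => True) X ∧
        |(count RootPlus X : ℝ) - 1 / 2 * count (fun _ => True) X| ≤
          ε * count (fun _ => True) X := by
  obtain ⟨-, -, -, hb1, hb2⟩ := Pool.Agent.Y948.CQ.t_C2
  refine ⟨fun m hs => ?_, Pool.Agent.Y703.CQ.c2, hasProd_c2, hb1, hb2, fun ε hε =>
    final (by linarith) (by linarith) hε Pool.Agent.N916.MO.dens17_fd⟩
  obtain ⟨F, h1, h2, h3, -⟩ := Pool.Agent.N809.P17.Tw.main hs
  exact ⟨F, (isL_iff m F).2 h1, fun G hG => h2 G ((isL_iff m G).1 hG), h3⟩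

end Pool.Agent.Results.MP_17f4cb_nt.NewformSeventeen
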