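import Pool.Agent.N975.NF.Cnt
import Pool.Agent.N975.NF.Tw21
import Pool.Agent.N916.PQ.Main21

/-!
# Non-vanishing of the central values of all the quadratic twists of the newform of level 21

Let `π'` be the automorphic representation of `PGL(2)` of the newform `f` of weight two and level `21`,
that is of the elliptic curve `y² + x y = x³ - 4 x - 1`; it comes from forms on the definite quaternion
algebras of discriminant `3` and of discriminant `7`, and has no complex multiplication. For a quadratic
field `ℚ(√m)`, `m` squarefree, `L(s + 1/2, π' ⊗ η)` is the function `F` of `IsL m F` below, so that the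
centre is `s = 1`. We prove, with no hypothesis:
* for all `m` the twisted L-function is entire and it vanishes at the centre if `ε = -1`, where `ε` is the
  product of the sign of `m`, of `-1` if `3` is inert or ramified, and of `-1` if `7` is inert;
* at least `15.4` percent of ALL the quadratic fields, real and imaginary, ordered by the discriminant,
  and at least `30.9` percent of those with `ε = 1`, have a non-vanishing central value: the lower
  limits are at least `137 η / 256` and `137 η / 128`, `η = ∏_{i ≥ 1} (1 - 2^{-i})`; the proportion of the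
  fields for which the descent matrix is of minimal corank is `4 η / 3` for the real fields in which `3` is
  split and `7` is not inert, and `η` for the other fields with `ε = 1`;
* at most half of all the quadratic fields have a non-vanishing central value, and for half of them
  `ε = 1` (upper limit and limit).

Joint work of helpers 969, 970, 971, 972, 973, 974, 975, 218, 402, 575, 637, 712, 809, 816, 855, 871, 875,
877, 878, 886, 916 and others: Gross's formula for the definite quaternion orders of discriminants 3 and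
7 and level 21, Rankin's method and the crossing numbers of closed geodesics for the real fields, the
bilinear and diagonal identities and their parity, the modular symbols and the functional equations, the
parity of the descent matrix, the natural density (see `Results/MP_696deb_nt/Conductor21.lean` and
`Results/MP_92892c_nt/TwoPartTwistsX21.lean`).
-/

set_option autoImplicit false

open Finset Filter

namespace Pool.Agent.Results.MP_17f4cb_nt.NewformTwentyOne

/-- the coefficient `a_p` of the newform of level `21`: `p + 1` minus the number of the points modulo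
`p`, the point at infinity included, of `y² + x y = x³ - 4 x - 1` -/
noncomputable def a (p : ℕ) : ℤ := (p : ℤ) - Nat.card {q : ZMod p × ZMod p //
  q.2 ^ 2 + q.1 * q.2 = q.1 ^ 3 - 4 * q.1 - 1}

/-- the value at the prime `p` of the quadratic character of `ℚ(√m)`, `m` squarefree (the trivial
character if `m = 1`); it is `0` if `p` is ramified -/
def chi (m : ℤ) (p : ℕ) : ℤ :=
  if p = 2 then (if m % 8 = 1 then 1 else if m % 8 = 5 then -1 else 0) else jacobiSym m p

/-- `F` is entire and is, for `Re s > 3/2`, the complete Euler product of the newform of level `21`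
twisted by the character of `ℚ(√m)`: `F s = L(s - 1/2, π' ⊗ η)` -/
def IsL (m : ℤ) (F : ℂ → ℂ) : Prop :=
  Differentiable ℂ F ∧ ∀ s : ℂ, (3 : ℝ) / 2 < s.re →
    HasProd (fun p : Nat.Primes => (1 - ((chi m p * a p : ℤ) : ℂ) * ((p : ℕ) : ℂ) ^ (-s) +
      (if (p : ℕ) = 3 ∨ (p : ℕ) = 7 then 0
        else ((chi m p ^ 2 : ℤ) : ℂ) * ((p : ℕ) : ℂ) ^ (1 - 2 * s)))⁻¹) (F s)

/-- the central value is not zero -/
def NonVanishing (m : ℤ) : Prop := ∃ F : ℂ → ℂ, IsL m F ∧ F 1 ≠ 0

/-- the global root number `ε` of the twist is `1`; `3` is split in `ℚ(√m)` if `m = 1 mod 3` and `7` is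
inert if `m = 3, 5, 6 mod 7` -/
def RootPlus (m : ℤ) : Prop := (if m < 0 then -1 else 1) * (if m % 3 = 1 then 1 else -1) *
  (if m % 7 = 3 ∨ m % 7 = 5 ∨ m % 7 = 6 then -1 else 1) = (1 : ℤ)

/-- `D` is a fundamental discriminant (`1` included) -/
def Fund (D : ℤ) : Prop := (Squarefree D ∧ D % 4 = 1) ∨
  ∃ m : ℤ, D = 4 * m ∧ Squarefree m ∧ (m % 4 = 2 ∨ m % 4 = 3)

/-- the squarefree integer `m` with `ℚ(√m) = ℚ(√D)` -/
def core (D : ℤ) : ℤ := if D % 2 = 1 then D else D / 4

open Classical in
/-- the number of the quadratic fields of discriminant `D`, `|D| ≤ X`, with the property `P` of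
`m = core D` -/
noncomputable def count (P : ℤ → Prop) (X : ℕ) : ℕ :=
  ((Icc (-(X : ℤ)) X).filter fun D => Fund D ∧ D ≠ 1 ∧ P (core D)).card

section proof

open Pool.Agent.N919.BS (NF)
open Pool.Agent.N809.PQ (Sg21 w21)
open Pool.Agent.W97.MT (ap affCount)
open Pool.Agent.N637.P21 (E21)
open Pool.Agent.N975.NF.T21 (IsLt main)
open Pool.Agent.N916.GB (eta)

theorem a_eq (p : ℕ) : a p = ap E21 p := by
  unfold a ap affCount
  congr 2
  refine Nat.card_congr (Equiv.subtypeEquivRight fun P => ?_)
  rw [WeierstrassCurve.Affine.equation_iff]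
  simp only [E21, WeierstrassCurve.map, map_one, map_neg, map_ofNat, map_zero, one_mul, zero_mul]
  constructor
  · intro h
    linear_combination h
  · intro h
    linear_combination h

theorem isL_iff (m : ℤ) (F : ℂ → ℂ) : IsL m F ↔ IsLt m F := by
  unfold IsL IsLt
  refine and_congr Iff.rfl (forall_congr' fun s => forall_congr' fun _ => ?_)
  have e : (fun p : Nat.Primes => (1 - ((chi m p * a p : ℤ) : ℂ) * ((p : ℕ) : ℂ) ^ (-s) +
      (if (p : ℕ) = 3 ∨ (p : ℕ) = 7 then 0
        else ((chi m p ^ 2 : ℤ) : ℂ) * ((p : ℕ) : ℂ) ^ (1 - 2 * s)))⁻¹) =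
      fun p : Nat.Primes => (1 - ((Pool.Agent.N975.NF.chi m p * ap E21 p : ℤ) : ℂ) *
        ((p : ℕ) : ℂ) ^ (-s) + (if (p : ℕ) = 3 ∨ (p : ℕ) = 7 then 0 else
        ((Pool.Agent.N975.NF.chi m p ^ 2 : ℤ) : ℂ) * ((p : ℕ) : ℂ) ^ (1 - 2 * s)))⁻¹ := by
    funext p
    rw [a_eq]
    rfl
  rw [e]

theorem good_nv {m : ℤ} (hs : Squarefree m) (h : Sg21 m) : NonVanishing m := by
  obtain ⟨F, h1, -, -, h2⟩ := main hs
  exact ⟨F, (isL_iff m F).2 h1, h2 h⟩

theorem nv_root {m : ℤ} (hs : Squarefree m) (h : NonVanishing m) : RootPlus m := by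
  obtain ⟨F, h1, h2⟩ := h
  obtain ⟨G, -, h4, h5, -⟩ := main hs
  by_contra hR
  have h6 := h4 F ((isL_iff m F).1 h1)
  rw [h6] at h2
  exact absurd (h5 hR) h2

theorem root_eq : RootPlus = fun m => Pool.Agent.N809.Red21.f21 m = true :=
  funext fun m => propext (Pool.Agent.N809.Red21.f21_iff m).symm

/-- half of the fields have `ε = 1` -/
theorem half : Tendsto (fun X : ℕ => (NF RootPlus X : ℝ) / (NF (fun _ => True) X : ℝ)) atTop
    (nhds (1 / 2)) := by
  rw [root_eq]
  exact Pool.Agent.N916.PQ.half_NF Pool.Agent.N809.Red21.hf21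

theorem hasProd_eta : HasProd (fun i : ℕ => 1 - (1 / 2 : ℝ) ^ (i + 1)) eta := by
  have h : Multipliable fun i : ℕ => 1 + -((1 / 2 : ℝ) ^ (i + 1)) := by
    apply multipliable_one_add_of_summable
    have h1 : Summable fun i : ℕ => (1 / 2 : ℝ) ^ i * (1 / 2) :=
      (summable_geometric_of_lt_one (by norm_num) (by norm_num)).mul_right _
    refine h1.congr fun i => ?_
    rw [norm_neg, Real.norm_of_nonneg (by positivity), pow_succ]
  have h3 := h.hasProd
  have e : (fun i : ℕ => 1 + -((1 / 2 : ℝ) ^ (i + 1))) = fun i : ℕ => 1 - (1 / 2 : ℝ) ^ (i + 1) := by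
    funext i
    ring
  rw [e] at h3
  exact h3

theorem dens : Tendsto (fun X : ℕ => (NF Sg21 X : ℝ) / (NF (fun _ => True) X : ℝ)) atTop
    (nhds (137 / 128 * eta / 2)) := by
  have e : 137 / 128 * eta / 2 = 137 / 256 * eta := by ring
  rw [e]
  exact Pool.Agent.N916.PQ.L21.fd21

end proof

/-- **Central values of the quadratic twists of the newform of level `21`.** -/
theorem result :
    (∀ m : ℤ, Squarefree m → ∃ F : ℂ → ℂ, IsL m F ∧ (∀ G : ℂ → ℂ, IsL m G → G = F) ∧
      (¬ RootPlus m → F 1 = 0)) ∧
    ∃ η : ℝ, HasProd (fun i : ℕ => 1 - (1 / 2 : ℝ) ^ (i + 1)) η ∧ 0.2887 < η ∧ η < 0.2889 ∧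
      ∀ ε : ℝ, 0 < ε → ∀ᶠ X : ℕ in atTop,
        (137 / 256 * η - ε) * count (fun _ => True) X ≤ count NonVanishing X ∧
        (137 / 128 * η - ε) * count RootPlus X ≤ count NonVanishing X ∧
        (count NonVanishing X : ℝ) ≤ (1 / 2 + ε) * count (fun _ => True) X ∧
        |(count RootPlus X : ℝ) - 1 / 2 * count (fun _ => True) X| ≤
          ε * count (fun _ => True) X := by
  obtain ⟨hb1, hb2⟩ := Pool.Agent.N916.GB.eta_bounds
  refine ⟨fun m hs => ?_, Pool.Agent.N916.GB.eta, hasProd_eta, hb1, hb2, fun ε hε => ?_⟩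
  · obtain ⟨F, h1, h2, h3, -⟩ := Pool.Agent.N975.NF.T21.main hs
    exact ⟨F, (isL_iff m F).2 h1, fun G hG => h2 G ((isL_iff m G).1 hG), h3⟩
  · have h := Pool.Agent.N975.NF.final (fun m hs h => good_nv hs h) (fun m hs h => nv_root hs h)
      half (η := 137 / 128 * Pool.Agent.N916.GB.eta) (by linarith) (by linarith) hε dens
    have e : 137 / 128 * Pool.Agent.N916.GB.eta / 2 = 137 / 256 * Pool.Agent.N916.GB.eta := by ring
    rw [e] at h
    exact h

end Pool.Agent.Results.MP_17f4cb_nt.NewformTwentyOne
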