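import Pool.Agent.N819.Count

/-!
# The non-vanishing proportion `1/2` fails for odd Hecke–Maass forms of level one

There are cuspidal automorphic representations of `PGL₂` over `ℚ`, namely those of the odd
Hecke–Maass cusp forms for `SL₂(ℤ)`, all of whose twists by quadratic characters have central value
`0`.  For them `N_π(x) / N(x)` tends to `0` and not to `1/2`.
-/

set_option autoImplicit false

open Filter Topology Pool.Agent.N819

namespace Pool.Agent.Results.MP_17f4cb_nt.OddMaass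

/-- `N(x)`, the number of quadratic extensions `E / ℚ` with `|Δ_E| < x` -/
noncomputable def N (x : ℝ) : ℕ := (QuadExtLT x).ncard

/-- `N_π(x)`, the number of quadratic extensions `E / ℚ` with `|Δ_E| < x` and
`L(1/2, π ⊗ η_E) ≠ 0` -/
noncomputable def Nnv (π : HeckeMaassForm) (x : ℝ) : ℕ := (NonvanishLT π x).ncard

/-- There is an odd Hecke–Maass cusp form `π` for `SL₂(ℤ)`, and for every such `π`: each twist
`π ⊗ η_E` by a quadratic extension `E` has a unique entire `L`-function, and it vanishes at `1/2`;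
so `N_π(x) = 0` for all `x`, while `N(x)` is a count of a finite non-empty set for `x > 3`; the
ratio `N_π(x) / N(x)` tends to `0` and does not tend to `1/2`. -/
theorem result : (∃ π : HeckeMaassForm, π.Odd) ∧ ∀ π : HeckeMaassForm, π.Odd →
    (∀ E ∈ QuadExt, ∃ L : ℂ → ℂ, IsTwistedL π E.2 L ∧ L (1 / 2) = 0 ∧
      ∀ L' : ℂ → ℂ, IsTwistedL π E.2 L' → L' = L) ∧
    (∀ x : ℝ, (QuadExtLT x).Finite) ∧ (∀ x : ℝ, 3 < x → 0 < N x) ∧ (∀ x : ℝ, Nnv π x = 0) ∧
    Tendsto (fun x : ℝ => (Nnv π x : ℝ) / (N x : ℝ)) atTop (𝓝 0) ∧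
    ¬ Tendsto (fun x : ℝ => (Nnv π x : ℝ) / (N x : ℝ)) atTop (𝓝 (1 / 2)) := by
  refine ⟨exists_odd, fun π hπ => ?_⟩
  have h0 : ∀ x : ℝ, Nnv π x = 0 := fun x => by
    unfold Nnv
    rw [nonvanishLT_eq_empty hπ x, Set.ncard_empty]
  have h1 : Tendsto (fun x : ℝ => (Nnv π x : ℝ) / (N x : ℝ)) atTop (𝓝 0) := by
    simp only [h0, Nat.cast_zero, zero_div]
    exact tendsto_const_nhds
  refine ⟨fun E hE => ?_, finite_quadExtLT, fun x hx => quadExtLT_pos hx, h0, h1, fun h => ?_⟩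
  · obtain ⟨L, hL, hL0⟩ := exists_twistedL π hπ E.2 hE.1 hE.2.1
    exact ⟨L, hL, hL0, fun L' hL' => hL'.unique hL⟩
  · exact (by norm_num : (0 : ℝ) ≠ 1 / 2) (tendsto_nhds_unique h1 h)

end Pool.Agent.Results.MP_17f4cb_nt.OddMaass
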